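import Pool.Agent.H83.X.T2

/-!
Row DW1: multiplication by a prime.
-/

set_option autoImplicit false

open Finset

namespace Pool.Agent.H47.X

open Pool.Agent.H83.X

theorem Qw_pos (w : ℕ) : 0 < Qw w := by
  unfold Qw
  refine Finset.prod_pos fun p hp => ?_
  have := (Finset.mem_filter.mp hp).2.pos
  positivity

theorem sq_dvd_Qw {w q : ℕ} (hq : q.Prime) (hw : q ≤ w) : q ^ 2 ∣ Qw w := by
  unfold Qw
  exact Finset.dvd_prod_of_mem (fun p => p ^ 2)
    (Finset.mem_filter.mpr ⟨Finset.mem_range.mpr (by omega), hq⟩)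

theorem gd_congr {w a b : ℕ} (h : a ≡ b [MOD Qw w]) : gd w a ↔ gd w b := by
  have key : ∀ q : ℕ, q.Prime → q ≤ w → (q ^ 2 ∣ a ↔ q ^ 2 ∣ b) := fun q hq hw =>
    (h.of_dvd (sq_dvd_Qw hq hw)).dvd_iff dvd_rfl
  constructor
  · intro H q hq hw hd
    exact H q hq hw ((key q hq hw).mpr hd)
  · intro H q hq hw hd
    exact H q hq hw ((key q hq hw).mp hd)

theorem gd_mul {w p a : ℕ} (hp : p.Prime) (hw : w < p) : gd w (p * a) ↔ gd w a := by
  have key : ∀ q : ℕ, q.Prime → q ≤ w → (q ^ 2 ∣ p * a ↔ q ^ 2 ∣ a) := by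
    intro q hq hqw
    have hc : Nat.Coprime (q ^ 2) p :=
      Nat.Coprime.pow_left 2 ((Nat.coprime_primes hq hp).mpr (by omega))
    exact hc.dvd_mul_left
  constructor
  · intro H q hq hqw hd
    exact H q hq hqw ((key q hq hqw).mpr hd)
  · intro H q hq hqw hd
    exact H q hq hqw ((key q hq hqw).mp hd)

theorem coprime_Qw {w p : ℕ} (hp : p.Prime) (hw : w < p) : Nat.Coprime p (Qw w) := by
  unfold Qw
  refine Nat.Coprime.prod_right fun q hq => ?_
  have h1 := Finset.mem_filter.mp hq
  have h2 := Finset.mem_range.mp h1.1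
  exact Nat.Coprime.pow_right 2 ((Nat.coprime_primes hp h1.2).mpr (by omega))

open Classical in
theorem pf_DW1 : T_DW1 := by
  intro w h p hp hw
  have hQ := Qw_pos w
  have hc := coprime_Qw hp hw
  have hinj : Set.InjOn (fun r => (p * r) % Qw w) (range (Qw w) : Set ℕ) := by
    intro r hr s hs hrs
    have hr' := Finset.mem_range.mp (Finset.mem_coe.mp hr)
    have hs' := Finset.mem_range.mp (Finset.mem_coe.mp hs)
    have h1 : p * r ≡ p * s [MOD Qw w] := hrs
    have h2 : r ≡ s [MOD Qw w] := Nat.ModEq.cancel_left_of_coprime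
      (by rw [Nat.coprime_comm] at hc; exact hc) h1
    exact Nat.ModEq.eq_of_lt_of_lt h2 hr' hs'
  have himg : (range (Qw w)).image (fun r => (p * r) % Qw w) = range (Qw w) := by
    refine Finset.eq_of_subset_of_card_le ?_ ?_
    · intro x hx
      obtain ⟨r, -, rfl⟩ := Finset.mem_image.mp hx
      exact Finset.mem_range.mpr (Nat.mod_lt _ hQ)
    · rw [Finset.card_image_of_injOn hinj]
  have hP : ∀ r, (gd w ((p * r) % Qw w) ∧ gd w ((p * r) % Qw w + p * h)) ↔
      (gd w r ∧ gd w (r + h)) := by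
    intro r
    have h1 : gd w ((p * r) % Qw w) ↔ gd w r :=
      (gd_congr (Nat.mod_modEq _ _)).trans (gd_mul hp hw)
    have h2 : gd w ((p * r) % Qw w + p * h) ↔ gd w (r + h) := by
      refine (gd_congr (Nat.ModEq.add_right (p * h) (Nat.mod_modEq (p * r) (Qw w)))).trans ?_
      rw [← Nat.mul_add]
      exact gd_mul hp hw
    rw [h1, h2]
  unfold Dw
  have hcard : ((range (Qw w)).filter fun r => gd w r ∧ gd w (r + p * h)).card =
      ((range (Qw w)).filter fun r => gd w r ∧ gd w (r + h)).card := by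
    have h3 : ((range (Qw w)).filter fun r => gd w r ∧ gd w (r + p * h)) =
        ((range (Qw w)).filter fun r => gd w ((p * r) % Qw w) ∧
          gd w ((p * r) % Qw w + p * h)).image (fun r => (p * r) % Qw w) := by
      conv_lhs => rw [← himg]
      rw [Finset.filter_image]
    rw [h3, Finset.card_image_of_injOn]
    · exact congrArg Finset.card (Finset.filter_congr fun r _ => hP r)
    · exact hinj.mono (fun x hx => Finset.mem_coe.mpr
        (Finset.mem_filter.mp (Finset.mem_coe.mp hx)).1)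
  rw [hcard]

end Pool.Agent.H47.X
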