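import Pool.Agent.H47.X.DW1

/-!
Row DW2: the densities.
-/

set_option autoImplicit false

open Finset Filter Topology

namespace Pool.Agent.H47.X

open Pool.Agent.H83.X
open Pool.Agent.H83.V (vl fz)
open Pool.Agent.H28.LF (lt)

theorem fz_true_ne (n : ℕ) : fz true n ≠ 0 := by
  unfold fz vl
  simp only [Bool.true_or, if_true]
  split_ifs <;> decide

theorem fz_false_ne (n : ℕ) : fz false n ≠ 0 ↔ ArithmeticFunction.moebius n ≠ 0 := by
  unfold fz vl lt
  simp only [Bool.false_or, decide_eq_true_eq]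
  by_cases h : ArithmeticFunction.moebius n ≠ 0
  · rw [if_pos h]
    refine ⟨fun _ => h, fun _ => ?_⟩
    split_ifs <;> decide
  · rw [if_neg h]
    exact ⟨fun h0 => absurd rfl h0, fun h0 => absurd h0 h⟩

theorem sum_inv_sq {w : ℕ} (hw : 0 < w) (N : ℕ) :
    ∑ k ∈ Ioc w N, (1 : ℝ) / (k : ℝ) ^ 2 ≤ 1 / w := by
  rcases le_or_gt N w with h | h
  · rw [Finset.Ioc_eq_empty (by omega)]
    simp only [Finset.sum_empty]
    positivity
  · have key : ∀ M, w ≤ M → ∑ k ∈ Ioc w M, (1 : ℝ) / (k : ℝ) ^ 2 ≤ 1 / w - 1 / M := by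
      intro M hM
      induction M, hM using Nat.le_induction with
      | base => simp
      | succ M hM ih =>
        have hIoc : Ioc w (M + 1) = insert (M + 1) (Ioc w M) := by
          ext x
          simp only [Finset.mem_Ioc, Finset.mem_insert]
          omega
        rw [hIoc, Finset.sum_insert (by simp only [Finset.mem_Ioc]; omega)]
        have hM0 : (0 : ℝ) < M := by exact_mod_cast (show 0 < M by omega)
        have h1 : (1 : ℝ) / ((M + 1 : ℕ) : ℝ) ^ 2 ≤ 1 / M - 1 / ((M + 1 : ℕ) : ℝ) := by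
          push_cast
          rw [div_sub_div _ _ hM0.ne' (by positivity), div_le_div_iff₀ (by positivity)
            (by positivity)]
          nlinarith
        linarith
    have := key N h.le
    have h2 : (0 : ℝ) ≤ 1 / (N : ℝ) := by positivity
    linarith

theorem card_dvd_le (N k : ℕ) :
    (((Ioc 0 N).filter fun n => k ∣ n).card : ℝ) ≤ N / k := by
  rw [Nat.Ioc_filter_dvd_card_eq_div]
  exact Nat.cast_div_le

open Classical in
/-- numbers up to `N` which are divisible by the square of a number above `w` -/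
theorem card_bad {w : ℕ} (hw : 0 < w) (N : ℕ) :
    (((Ioc 0 N).filter fun n => ∃ k, w < k ∧ k ^ 2 ∣ n).card : ℝ) ≤ N / w := by
  have hsub : ((Ioc 0 N).filter fun n => ∃ k, w < k ∧ k ^ 2 ∣ n) ⊆
      (Ioc w N).biUnion fun k => (Ioc 0 N).filter fun n => k ^ 2 ∣ n := by
    intro n hn
    obtain ⟨hn1, k, hk, hd⟩ := Finset.mem_filter.mp hn
    have hn2 := Finset.mem_Ioc.mp hn1
    have h1 : k ^ 2 ≤ n := Nat.le_of_dvd hn2.1 hd
    have h2 : k ≤ k ^ 2 := by nlinarith
    exact Finset.mem_biUnion.mpr ⟨k, Finset.mem_Ioc.mpr ⟨hk, by omega⟩,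
      Finset.mem_filter.mpr ⟨hn1, hd⟩⟩
  have h1 : (((Ioc 0 N).filter fun n => ∃ k, w < k ∧ k ^ 2 ∣ n).card : ℝ) ≤
      ∑ k ∈ Ioc w N, (((Ioc 0 N).filter fun n => k ^ 2 ∣ n).card : ℝ) := by
    have := (Finset.card_le_card hsub).trans Finset.card_biUnion_le
    exact_mod_cast this
  refine h1.trans ?_
  have h2 : ∀ k ∈ Ioc w N, (((Ioc 0 N).filter fun n => k ^ 2 ∣ n).card : ℝ) ≤
      N * (1 / (k : ℝ) ^ 2) := by
    intro k _
    have := card_dvd_le N (k ^ 2)
    rw [mul_one_div]
    exact_mod_cast this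
  refine (Finset.sum_le_sum h2).trans ?_
  rw [← Finset.mul_sum]
  have := mul_le_mul_of_nonneg_left (sum_inv_sq hw N) (Nat.cast_nonneg (α := ℝ) N)
  rw [mul_one_div] at this
  exact this

theorem gd_of_moebius {w n : ℕ} (h : ArithmeticFunction.moebius n ≠ 0) : gd w n := by
  intro p hp _ hd
  have hs : Squarefree n := ArithmeticFunction.moebius_ne_zero_iff_squarefree.mp h
  have := hs p (by rwa [← sq])
  exact hp.one_lt.ne' (Nat.isUnit_iff.mp this)

theorem moebius_of_gd {w n : ℕ} (h : gd w n) (hb : ¬ ∃ k, w < k ∧ k ^ 2 ∣ n) :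
    ArithmeticFunction.moebius n ≠ 0 := by
  rw [ArithmeticFunction.moebius_ne_zero_iff_squarefree, Nat.squarefree_iff_prime_squarefree]
  intro p hp hd
  rw [← sq] at hd
  rcases le_or_gt p w with h1 | h1
  · exact h p hp h1 hd
  · exact hb ⟨p, h1, hd⟩

open Classical in
theorem card_good (w h t : ℕ) :
    ((Ico 1 (1 + Qw w * t)).filter fun n => gd w n ∧ gd w (n + h)).card =
      t * ((range (Qw w)).filter fun r => gd w r ∧ gd w (r + h)).card := by
  have hper : Function.Periodic (fun n => gd w n ∧ gd w (n + h)) (Qw w) := by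
    intro n
    have h1 : gd w (n + Qw w) ↔ gd w n := gd_congr (by simp [Nat.ModEq])
    have h2 : gd w (n + Qw w + h) ↔ gd w (n + h) := gd_congr (by
      have : n + Qw w + h = n + h + Qw w := by ring
      rw [this]
      simp [Nat.ModEq])
    simp only [h1, h2]
  induction t with
  | zero => simp
  | succ t ih =>
    have hdis : Ico 1 (1 + Qw w * (t + 1)) =
        Ico 1 (1 + Qw w * t) ∪ Ico (1 + Qw w * t) (1 + Qw w * t + Qw w) := by
      rw [Finset.Ico_union_Ico_eq_Ico (by omega) (by omega)]
      congr 1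
      ring
    rw [hdis, Finset.filter_union, Finset.card_union_of_disjoint, ih,
      Nat.filter_Ico_card_eq_of_periodic _ _ _ hper, Nat.count_eq_card_filter_range]
    · ring
    · exact Finset.disjoint_filter_filter (Finset.Ico_disjoint_Ico_consecutive _ _ _)

open Classical in
theorem pf_DW2 : T_DW2 := by
  refine ⟨?_, ?_⟩
  · intro h δ hδ
    unfold DnX at hδ
    refine tendsto_nhds_unique hδ (tendsto_const_nhds.congr' ?_)
    filter_upwards [eventually_gt_atTop 0] with N hN
    rw [Finset.filter_true_of_mem (fun n _ => mul_ne_zero (fz_true_ne n) (fz_true_ne _)),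
      Nat.card_Icc]
    have : (0 : ℝ) < N := by exact_mod_cast hN
    rw [Nat.add_sub_cancel]
    exact (div_self this.ne').symm
  · intro h δ w hw hδ
    unfold DnX at hδ
    have hQ := Qw_pos w
    have hQr : (0 : ℝ) < Qw w := by exact_mod_cast hQ
    have hsub : Tendsto (fun t : ℕ => Qw w * t) atTop atTop :=
      tendsto_id.const_mul_atTop' hQ
    have h1 := hδ.comp hsub
    have h2 : Tendsto (fun t : ℕ => |((((Icc 1 (Qw w * t)).filter
        fun n => fz false n * fz false (n + h) ≠ 0).card : ℝ) / ((Qw w * t : ℕ) : ℝ)) - Dw w h|)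
        atTop (𝓝 |δ - Dw w h|) := (h1.sub_const _).abs
    refine le_of_tendsto h2 ?_
    filter_upwards [eventually_gt_atTop h] with t ht
    set N := Qw w * t with hN
    have hNh : h ≤ N := by nlinarith
    have hN0 : 0 < N := Nat.mul_pos hQ (by omega)
    have hNr : (0 : ℝ) < N := by exact_mod_cast hN0
    have hwr : (0 : ℝ) < w := by exact_mod_cast hw
    set A := (Icc 1 N).filter fun n => fz false n * fz false (n + h) ≠ 0 with hA
    set G := (Icc 1 N).filter fun n => gd w n ∧ gd w (n + h) with hG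
    set B := (Ioc 0 (N + h)).filter fun n => ∃ k, w < k ∧ k ^ 2 ∣ n with hB
    have hGc : (G.card : ℝ) = N * Dw w h := by
      have h3 : G = (Ico 1 (1 + Qw w * t)).filter fun n => gd w n ∧ gd w (n + h) := by
        rw [hG]
        congr 1
        ext x
        simp only [Finset.mem_Icc, Finset.mem_Ico]
        omega
      rw [h3, card_good, hN]
      unfold Dw
      push_cast
      field_simp
    have hAG : A ⊆ G := by
      intro n hn
      obtain ⟨hn1, hn2⟩ := Finset.mem_filter.mp hn
      have h3 := mul_ne_zero_iff.mp hn2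
      exact Finset.mem_filter.mpr ⟨hn1, gd_of_moebius ((fz_false_ne n).mp h3.1),
        gd_of_moebius ((fz_false_ne _).mp h3.2)⟩
    have hGA : G ⊆ A ∪ (B ∪ B.image fun n => n - h) := by
      intro n hn
      obtain ⟨hn1, hn2, hn3⟩ := Finset.mem_filter.mp hn
      have hn4 := Finset.mem_Icc.mp hn1
      by_cases hb1 : ∃ k, w < k ∧ k ^ 2 ∣ n
      · exact Finset.mem_union_right _ (Finset.mem_union_left _
          (Finset.mem_filter.mpr ⟨Finset.mem_Ioc.mpr ⟨by omega, by omega⟩, hb1⟩))
      by_cases hb2 : ∃ k, w < k ∧ k ^ 2 ∣ n + h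
      · exact Finset.mem_union_right _ (Finset.mem_union_right _
          (Finset.mem_image.mpr ⟨n + h, Finset.mem_filter.mpr ⟨Finset.mem_Ioc.mpr
            ⟨by omega, by omega⟩, hb2⟩, by omega⟩))
      · refine Finset.mem_union_left _ (Finset.mem_filter.mpr ⟨hn1, mul_ne_zero ?_ ?_⟩)
        · exact (fz_false_ne n).mpr (moebius_of_gd hn2 hb1)
        · exact (fz_false_ne _).mpr (moebius_of_gd hn3 hb2)
    have hc1 : (A.card : ℝ) ≤ G.card := by exact_mod_cast Finset.card_le_card hAG
    have hc2 : (G.card : ℝ) ≤ A.card + (B.card + B.card) := by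
      have h3 := (Finset.card_le_card hGA).trans ((Finset.card_union_le _ _).trans
        (Nat.add_le_add_left ((Finset.card_union_le _ _).trans
          (Nat.add_le_add_left Finset.card_image_le _)) _))
      exact_mod_cast h3
    have hBc : (B.card : ℝ) ≤ 2 * N / w := by
      have h3 := card_bad hw (N + h)
      refine h3.trans ?_
      rw [div_le_div_iff_of_pos_right hwr]
      have : ((N + h : ℕ) : ℝ) ≤ ((N + N : ℕ) : ℝ) := by exact_mod_cast (by omega)
      push_cast at this ⊢
      linarith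
    have e1 : (A.card : ℝ) / N - Dw w h = (A.card - G.card) / N := by
      rw [hGc]
      field_simp
    rw [e1, abs_le]
    constructor
    · rw [le_div_iff₀ hNr]
      have : -(4 / (w : ℝ)) * N = -(2 * N / w + 2 * N / w) := by ring
      rw [this]
      linarith
    · rw [div_le_iff₀ hNr]
      have : (0 : ℝ) ≤ 4 / w * N := by positivity
      linarith

end Pool.Agent.H47.X
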